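import Pool.Agent.Helper54.PT.Defs

/-!
# TW modules A12 and A13 (MP_1d384c_nt): majorants and the recurrence for squarefree sums
-/

set_option autoImplicit false

namespace Pool.Agent.Helper77.TW

open Finset Pool.Agent.Helper54.PT

theorem majorant_aux (s l : ℕ → ℝ) (L : ℝ) (h0 : s 0 ≤ 1) (hl : ∀ m, 0 ≤ l m)
    (hrec : ∀ m : ℕ, m * s m ≤ ∑ k ∈ Icc 1 m, l k * s (m - k))
    (hL : ∀ m, ∑ k ∈ Icc 1 m, l k ≤ L) (m : ℕ) :
    ∃ j : ℕ, j ≤ m ∧ (∀ i ≤ m, s i ≤ L ^ j / j.factorial) ∧ (j = m ∨ L < j + 1) := by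
  have hL0 : 0 ≤ L := by simpa using hL 0
  induction m with
  | zero =>
    refine ⟨0, le_refl _, fun i hi => ?_, Or.inl rfl⟩
    rw [Nat.le_zero.1 hi]
    simpa using h0
  | succ m ih =>
    obtain ⟨j, hj, hb, hor⟩ := ih
    set B := L ^ j / (j.factorial : ℝ) with hB
    have hB0 : 0 ≤ B := by positivity
    have h1 : ((m : ℝ) + 1) * s (m + 1) ≤ L * B := by
      have h2 := hrec (m + 1)
      push_cast at h2
      calc ((m : ℝ) + 1) * s (m + 1) ≤ ∑ k ∈ Icc 1 (m + 1), l k * s (m + 1 - k) := h2
        _ ≤ ∑ k ∈ Icc 1 (m + 1), l k * B := by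
            refine Finset.sum_le_sum fun k hk => ?_
            rw [mem_Icc] at hk
            exact mul_le_mul_of_nonneg_left (hb _ (by omega)) (hl k)
        _ = (∑ k ∈ Icc 1 (m + 1), l k) * B := by rw [Finset.sum_mul]
        _ ≤ L * B := mul_le_mul_of_nonneg_right (hL _) hB0
    have hm : (0 : ℝ) < (m : ℝ) + 1 := by positivity
    rcases lt_or_ge L ((m : ℝ) + 1) with hlt | hge
    · refine ⟨j, by omega, ?_, Or.inr ?_⟩
      · intro i hi
        rcases Nat.lt_or_ge i (m + 1) with h | h
        · exact hb i (by omega)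
        · have : i = m + 1 := by omega
          rw [this]
          have h3 : L * B ≤ ((m : ℝ) + 1) * B := mul_le_mul_of_nonneg_right hlt.le hB0
          exact le_of_mul_le_mul_left (h1.trans h3) hm
      · rcases hor with h | h
        · rw [h]; exact hlt
        · exact h
    · have hjm : j = m := by
        rcases hor with h | h
        · exact h
        · have h3 : ((j : ℝ) + 1) ≤ (m : ℝ) + 1 := by
            have : (j : ℝ) ≤ m := by exact_mod_cast hj
            linarith
          linarith
      refine ⟨m + 1, le_refl _, ?_, Or.inl rfl⟩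
      have e1 : L ^ (m + 1) / ((m + 1).factorial : ℝ) = B * (L / ((m : ℝ) + 1)) := by
        rw [hB, hjm, Nat.factorial_succ, pow_succ]
        push_cast
        field_simp
      have h4 : B ≤ B * (L / ((m : ℝ) + 1)) := by
        have : 1 ≤ L / ((m : ℝ) + 1) := (one_le_div hm).2 hge
        nlinarith
      intro i hi
      rw [e1]
      rcases Nat.lt_or_ge i (m + 1) with h | h
      · exact (hb i (by omega)).trans h4
      · have : i = m + 1 := by omega
        rw [this]
        rw [mul_div_assoc', le_div_iff₀ hm]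
        calc s (m + 1) * ((m : ℝ) + 1) = ((m : ℝ) + 1) * s (m + 1) := by ring
          _ ≤ L * B := h1
          _ = B * L := by ring

section sq

variable {ℓ : ℕ} {σ : Type} (X : PData ℓ σ) (η : X.P → ℂ)

/-- the full sum -/
noncomputable def SF (m : ℕ) : ℂ := ∑ D ∈ X.sq m, ∏ p ∈ D, η p

/-- the sum over the sets containing `p` -/
noncomputable def TF (p : X.P) (m : ℕ) : ℂ := ∑ D ∈ (X.sq m).filter (fun D => p ∈ D), ∏ p ∈ D, η p

theorem TF_small (p : X.P) (m : ℕ) (h : m < X.deg p) : TF X η p m = 0 := by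
  unfold TF
  rw [Finset.sum_eq_zero]
  intro D hD
  rw [mem_filter, X.mem_sq] at hD
  exfalso
  have := single_le_sum (f := X.deg) (fun _ _ => Nat.zero_le _) hD.2
  have h2 : X.dg D = m := hD.1
  unfold PData.dg at h2
  omega

theorem TF_rec (p : X.P) (m : ℕ) (h : X.deg p ≤ m) :
    TF X η p m = η p * (SF X η (m - X.deg p) - TF X η p (m - X.deg p)) := by
  have h1 : SF X η (m - X.deg p) - TF X η p (m - X.deg p) =
      ∑ D ∈ (X.sq (m - X.deg p)).filter (fun D => ¬ p ∈ D), ∏ p ∈ D, η p := by
    unfold SF TF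
    rw [← Finset.sum_filter_add_sum_filter_not (X.sq (m - X.deg p)) (fun D => p ∈ D)]
    ring
  rw [h1, TF, Finset.mul_sum]
  refine Finset.sum_nbij' (fun D => D.erase p) (fun D => insert p D) ?_ ?_ ?_ ?_ ?_
  · intro D hD
    rw [mem_filter, X.mem_sq] at hD ⊢
    refine ⟨?_, notMem_erase p D⟩
    have := Finset.sum_erase_add D X.deg hD.2
    have h2 : X.dg D = m := hD.1
    unfold PData.dg at h2 ⊢
    omega
  · intro D hD
    rw [mem_filter, X.mem_sq] at hD ⊢
    refine ⟨?_, mem_insert_self p D⟩
    have h2 : X.dg D = m - X.deg p := hD.1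
    unfold PData.dg at h2 ⊢
    rw [Finset.sum_insert hD.2]
    omega
  · intro D hD
    rw [mem_filter] at hD
    exact insert_erase hD.2
  · intro D hD
    rw [mem_filter] at hD
    exact erase_insert hD.2
  · intro D hD
    rw [mem_filter] at hD
    exact (Finset.mul_prod_erase D η hD.2).symm

theorem TF_eq (p : X.P) (m : ℕ) : TF X η p m = ∑ k ∈ Icc 1 m, (if X.deg p ∣ k then
    (-1) ^ (k / X.deg p - 1) * η p ^ (k / X.deg p) else 0) * SF X η (m - k) := by
  have hj := X.deg_pos p
  induction m using Nat.strong_induction_on with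
  | _ m ih =>
    rcases Nat.lt_or_ge m (X.deg p) with h | h
    · rw [TF_small X η p m h]
      symm
      refine Finset.sum_eq_zero fun k hk => ?_
      rw [mem_Icc] at hk
      rw [if_neg, zero_mul]
      intro hd
      have := Nat.le_of_dvd (by omega) hd
      omega
    · rw [TF_rec X η p m h, ih (m - X.deg p) (by omega)]
      set j := X.deg p with hjd
      have e0 : Icc 1 m = Icc 1 (j - 1) ∪ Icc j m := by
        ext k
        simp only [mem_union, mem_Icc]
        omega
      have e1 : Disjoint (Icc 1 (j - 1)) (Icc j m) := by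
        rw [Finset.disjoint_left]
        intro k hk hk'
        rw [mem_Icc] at hk hk'
        omega
      rw [e0, Finset.sum_union e1]
      have e2 : ∑ k ∈ Icc 1 (j - 1), (if j ∣ k then
          (-1) ^ (k / j - 1) * η p ^ (k / j) else 0) * SF X η (m - k) = 0 := by
        refine Finset.sum_eq_zero fun k hk => ?_
        rw [mem_Icc] at hk
        rw [if_neg, zero_mul]
        intro hd
        have := Nat.le_of_dvd (by omega) hd
        omega
      rw [e2, zero_add]
      have e3 : ∀ f : ℕ → ℂ, ∑ k ∈ Icc j m, f k = f j + ∑ k ∈ Icc 1 (m - j), f (k + j) := by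
        intro f
        have e4 : Icc j m = insert j ((Icc 1 (m - j)).image (fun k => k + j)) := by
          ext k
          simp only [mem_insert, mem_image, mem_Icc]
          constructor
          · intro hk
            rcases Nat.eq_or_lt_of_le hk.1 with h' | h'
            · left; exact h'.symm
            · right; exact ⟨k - j, by omega, by omega⟩
          · rintro (rfl | ⟨a, ha, rfl⟩)
            · exact ⟨le_refl _, h⟩
            · omega
        rw [e4, Finset.sum_insert, Finset.sum_image]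
        · intro a _ b _ hab
          have : a + j = b + j := hab
          omega
        · simp only [mem_image, mem_Icc, not_exists, not_and]
          intro a ha
          omega
      rw [e3]
      have e5 : ∀ k : ℕ, (if j ∣ k + j then (-1 : ℂ) ^ ((k + j) / j - 1) * η p ^ ((k + j) / j)
          else 0) = if k = 0 then η p else
            -(η p) * (if j ∣ k then (-1) ^ (k / j - 1) * η p ^ (k / j) else 0) := by
        intro k
        have hdd : j ∣ k + j ↔ j ∣ k := by simp
        rw [Nat.add_div_right k hj]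
        by_cases hk : k = 0
        · subst hk
          simp
        · rw [if_neg hk]
          by_cases hd : j ∣ k
          · rw [if_pos (hdd.2 hd), if_pos hd]
            have hk1 : 1 ≤ k / j := (Nat.one_le_div_iff hj).2 (Nat.le_of_dvd (by omega) hd)
            obtain ⟨c, hc⟩ : ∃ c, k / j = c + 1 := ⟨k / j - 1, by omega⟩
            rw [hc]
            simp only [Nat.add_sub_cancel]
            ring
          · rw [if_neg (fun h' => hd (hdd.1 h')), if_neg hd, mul_zero]
      have e6 := e5 0
      rw [zero_add, if_pos rfl] at e6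
      rw [e6, mul_sub, sub_eq_add_neg, Finset.mul_sum, ← Finset.sum_neg_distrib]
      congr 1
      refine Finset.sum_congr rfl fun k hk => ?_
      rw [mem_Icc] at hk
      rw [e5 k, if_neg (show ¬ k = 0 by omega), show m - (k + j) = m - j - k by omega]
      ring

theorem sum_upto (k m : ℕ) (hk : 1 ≤ k) (hkm : k ≤ m) (f : X.P → ℂ) (F : ℕ → X.P → ℂ)
    (hf : ∀ p, f p = if X.deg p ∣ k then F (X.deg p) p else 0) :
    ∑ p ∈ X.upto m, f p = ∑ j ∈ k.divisors, ∑ p ∈ X.pr j, F j p := by
  unfold PData.upto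
  rw [Finset.sum_biUnion]
  · have e1 : ∀ j ∈ range (m + 1), ∑ p ∈ X.pr j, f p =
        if j ∣ k then ∑ p ∈ X.pr j, F j p else 0 := by
      intro j _
      split_ifs with h
      · refine Finset.sum_congr rfl fun p hp => ?_
        rw [X.mem_pr] at hp
        rw [hf, hp, if_pos h]
      · refine Finset.sum_eq_zero fun p hp => ?_
        rw [X.mem_pr] at hp
        rw [hf, hp, if_neg h]
    rw [Finset.sum_congr rfl e1, ← Finset.sum_filter]
    refine Finset.sum_congr ?_ fun _ _ => rfl
    ext j
    rw [mem_filter, mem_range, Nat.mem_divisors]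
    constructor
    · rintro ⟨_, h⟩
      exact ⟨h, by omega⟩
    · rintro ⟨h, _⟩
      have := Nat.le_of_dvd (by omega) h
      exact ⟨by omega, h⟩
  · intro a _ b _ hab
    change Disjoint (X.pr a) (X.pr b)
    rw [Finset.disjoint_left]
    intro p hp hp'
    rw [X.mem_pr] at hp hp'
    exact hab (hp.symm.trans hp')

end sq

end Pool.Agent.Helper77.TW

namespace Pool.Agent.Helper54.PT

open Polynomial Finset Filter Topology Pool.Agent.Helper77.TW

/-- A12: majorants -/
theorem majorant (s l : ℕ → ℝ) (L : ℝ) (hs : ∀ m, 0 ≤ s m) (h0 : s 0 ≤ 1) (hl : ∀ m, 0 ≤ l m)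
    (hrec : ∀ m : ℕ, m * s m ≤ ∑ k ∈ Icc 1 m, l k * s (m - k))
    (hL : ∀ m, ∑ k ∈ Icc 1 m, l k ≤ L) (m : ℕ) : s m ≤ Real.exp L := by
  have _ := hs
  obtain ⟨j, _, hb, _⟩ := majorant_aux s l L h0 hl hrec hL m
  have hL0 : 0 ≤ L := by simpa using hL 0
  exact (hb m (le_refl _)).trans (Real.pow_div_factorial_le_exp L hL0 j)

/-- A13: the recurrence for squarefree sums -/
theorem sq_recurrence {ℓ : ℕ} {σ : Type} (X : PData ℓ σ) (η : X.P → ℂ) (m : ℕ) :
    (m : ℂ) * ∑ D ∈ X.sq m, ∏ p ∈ D, η p =
      ∑ k ∈ Icc 1 m, (∑ j ∈ k.divisors, ∑ p ∈ X.pr j,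
        (j : ℂ) * (-1) ^ (k / j - 1) * η p ^ (k / j)) * ∑ D ∈ X.sq (m - k), ∏ p ∈ D, η p := by
  have h1 : (m : ℂ) * ∑ D ∈ X.sq m, ∏ p ∈ D, η p =
      ∑ p ∈ X.upto m, (X.deg p : ℂ) * TF X η p m := by
    have h2 : ∀ D ∈ X.sq m, (m : ℂ) * ∏ p ∈ D, η p =
        ∑ p ∈ X.upto m, if p ∈ D then (X.deg p : ℂ) * ∏ p ∈ D, η p else 0 := by
      intro D hD
      have hD' := hD
      rw [X.mem_sq] at hD
      have hsub : D ⊆ X.upto m := by
        intro p hp
        rw [X.mem_upto, ← hD]
        exact single_le_sum (f := X.deg) (fun _ _ => Nat.zero_le _) hp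
      rw [← Finset.sum_filter, Finset.filter_mem_eq_inter, Finset.inter_eq_right.2 hsub,
        ← Finset.sum_mul]
      congr 1
      rw [← hD, PData.dg]
      push_cast
      rfl
    rw [Finset.mul_sum, Finset.sum_congr rfl h2, Finset.sum_comm]
    refine Finset.sum_congr rfl fun p _ => ?_
    rw [TF, Finset.mul_sum, Finset.sum_filter]
  rw [h1]
  have h3 : ∀ p ∈ X.upto m, (X.deg p : ℂ) * TF X η p m = ∑ k ∈ Icc 1 m, (if X.deg p ∣ k then
      (X.deg p : ℂ) * (-1) ^ (k / X.deg p - 1) * η p ^ (k / X.deg p) else 0) *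
        SF X η (m - k) := by
    intro p _
    rw [TF_eq, Finset.mul_sum]
    refine Finset.sum_congr rfl fun k _ => ?_
    split_ifs <;> ring
  rw [Finset.sum_congr rfl h3, Finset.sum_comm]
  refine Finset.sum_congr rfl fun k hk => ?_
  rw [mem_Icc] at hk
  rw [← Finset.sum_mul]
  congr 1
  exact sum_upto X k m hk.1 hk.2 _ (fun j p => (j : ℂ) * (-1) ^ (k / j - 1) * η p ^ (k / j))
    fun p => rfl

end Pool.Agent.Helper54.PT
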