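import Pool.Agent.Helper54.PT.Defs

/-!
# TW module A10 (MP_1d384c_nt): the zero-free region
-/

set_option autoImplicit false

namespace Pool.Agent.Helper77.TW

open Filter Topology

/-- sums of multisets of series -/
theorem hasSum_multiset (s : Multiset ℂ) (F : ℂ → ℕ → ℂ) (G : ℂ → ℂ)
    (h : ∀ β ∈ s, HasSum (F β) (G β)) :
    HasSum (fun k => (s.map fun β => F β k).sum) ((s.map G).sum) := by
  induction s using Multiset.induction_on with
  | empty => simp
  | cons a s ih =>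
    simp only [Multiset.map_cons, Multiset.sum_cons]
    exact (h a (Multiset.mem_cons_self a s)).add
      (ih fun β hβ => h β (Multiset.mem_cons_of_mem hβ))

theorem geom (z : ℂ) (hz : ‖z‖ < 1) : HasSum (fun k : ℕ => z ^ (k + 1)) (z / (1 - z)) := by
  have := (hasSum_geometric_of_norm_lt_one hz).mul_left z
  simpa [pow_succ', div_eq_mul_inv] using this

theorem re_ge (z : ℂ) (hz : ‖z‖ < 1) : -(1 / 2) ≤ (z / (1 - z)).re := by
  have h1 : Complex.normSq z < 1 := by
    rw [Complex.normSq_eq_norm_sq]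
    nlinarith [norm_nonneg z]
  have hne : (1 - z) ≠ 0 := by
    intro h
    have : z = 1 := (sub_eq_zero.1 h).symm
    rw [this, norm_one] at hz
    exact lt_irrefl _ hz
  have hN : 0 < Complex.normSq (1 - z) := Complex.normSq_pos.2 hne
  rw [Complex.div_re, ← add_div, le_div_iff₀ hN]
  rw [Complex.normSq_apply] at h1 ⊢
  simp only [Complex.sub_re, Complex.sub_im, Complex.one_re, Complex.one_im]
  nlinarith

theorem sum_re_ge (s : Multiset ℂ) (f : ℂ → ℂ) (h : ∀ β ∈ s, -(1 / 2) ≤ (f β).re) :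
    -((s.card : ℝ) / 2) ≤ ((s.map f).sum).re := by
  induction s using Multiset.induction_on with
  | empty => simp
  | cons a s ih =>
    simp only [Multiset.map_cons, Multiset.sum_cons, Complex.add_re, Multiset.card_cons]
    have h1 := h a (Multiset.mem_cons_self a s)
    have h2 := ih fun β hβ => h β (Multiset.mem_cons_of_mem hβ)
    push_cast
    linarith

theorem final_ineq (d t y : ℝ) (hd : 1 ≤ d) (ht : t * (5 * (d + 1)) = 1)
    (hy : (1 - t) * (1 - t / 8) < y) (hy1 : y < 1)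
    (h : 0 ≤ 3 * ((1 - t) / t) - 4 * (y / (1 - y) - (d - 1) / 2) + d / 2) : False := by
  have ht0 : 0 < t := by
    by_contra hc
    push Not at hc
    nlinarith
  have ht1 : t ≤ 1 / 10 := by nlinarith
  have h1y : 0 < 1 - y := by linarith
  -- y / (1 - y) ≥ 8 (1-t)(1-t/8) / (9 t)
  have h2 : (1 - t) * (1 - t / 8) * (8 / (9 * t)) ≤ y / (1 - y) := by
    rw [le_div_iff₀ h1y]
    have h3 : 1 - y ≤ 9 * t / 8 := by nlinarith
    have h4 : 0 ≤ (1 - t) * (1 - t / 8) * (8 / (9 * t)) := by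
      have : 0 < 1 - t := by linarith
      have : 0 < 1 - t / 8 := by linarith
      positivity
    calc (1 - t) * (1 - t / 8) * (8 / (9 * t)) * (1 - y)
        ≤ (1 - t) * (1 - t / 8) * (8 / (9 * t)) * (9 * t / 8) := by gcongr
      _ = (1 - t) * (1 - t / 8) := by field_simp
      _ ≤ y := hy.le
  have h5 : 0 ≤ (3 * ((1 - t) / t) - 4 * ((1 - t) * (1 - t / 8) * (8 / (9 * t)) - (d - 1) / 2)
      + d / 2) * t := by
    apply mul_nonneg _ ht0.le
    linarith
  have h6 : (3 * ((1 - t) / t) - 4 * ((1 - t) * (1 - t / 8) * (8 / (9 * t)) - (d - 1) / 2)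
      + d / 2) * t = 3 * (1 - t) - 4 * ((1 - t) * (1 - t / 8) * (8 / 9)) + t * (5 * d / 2 - 2) := by
    field_simp
    ring
  rw [h6] at h5
  nlinarith

end Pool.Agent.Helper77.TW

namespace Pool.Agent.Helper54.PT

open Polynomial Finset Filter Topology Pool.Agent.Helper77.TW

/-- A10: the zero-free region -/
theorem zero_free (s s' : Multiset ℂ) (q : ℝ) (hq : 0 < q) (d : ℕ) (hs : s.card ≤ d)
    (hs' : s'.card ≤ d) (h : ∀ α ∈ s, ‖α‖ ≤ q) (h' : ∀ α ∈ s', ‖α‖ ≤ q)
    (hpos : ∀ θ : ℂ, ‖θ‖ = 1 → ∀ k : ℕ, 1 ≤ k → 0 ≤ 3 * q ^ k -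
      4 * (θ ^ k * (s.map fun α => α ^ k).sum).re -
        (θ ^ (2 * k) * (s'.map fun α => α ^ k).sum).re) :
    ∀ α ∈ s, ‖α‖ ≤ q * (1 - 1 / (40 * (d + 1))) := by
  intro α hα
  by_contra hcon
  push Not at hcon
  have hd1 : 1 ≤ d := by
    have : 0 < s.card := Multiset.card_pos_iff_exists_mem.2 ⟨α, hα⟩
    omega
  have hdR : (1 : ℝ) ≤ d := by exact_mod_cast hd1
  set t : ℝ := 1 / (5 * (d + 1)) with ht
  have ht5 : t * (5 * ((d : ℝ) + 1)) = 1 := by
    rw [ht]; field_simp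
  have ht0 : 0 < t := by positivity
  have ht1 : t < 1 := by nlinarith
  have ht8 : (1 : ℝ) / (40 * (d + 1)) = t / 8 := by
    rw [ht]; field_simp; norm_num
  rw [ht8] at hcon
  have hα0 : 0 < ‖α‖ := by
    refine lt_of_le_of_lt ?_ hcon
    have : 0 ≤ 1 - t / 8 := by linarith
    positivity
  have hαne : (‖α‖ : ℂ) ≠ 0 := by exact_mod_cast hα0.ne'
  set θ : ℂ := (starRingEnd ℂ α) / ‖α‖ with hθ
  have hθ1 : ‖θ‖ = 1 := by
    rw [hθ, norm_div, Complex.norm_conj, Complex.norm_real, norm_norm, div_self hα0.ne']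
  have hθα : θ * α = ‖α‖ := by
    rw [hθ, div_mul_eq_mul_div, mul_comm, Complex.mul_conj, Complex.normSq_eq_norm_sq]
    push_cast
    field_simp
  set x : ℝ := (1 - t) / q with hx
  have hx0 : 0 < x := div_pos (by linarith) hq
  have hxq : x * q = 1 - t := by rw [hx]; field_simp
  have hz : ∀ β ∈ s, ‖(x : ℂ) * θ * β‖ < 1 := by
    intro β hβ
    rw [norm_mul, norm_mul, hθ1, mul_one, Complex.norm_real, Real.norm_eq_abs, abs_of_pos hx0]
    calc x * ‖β‖ ≤ x * q := by
          have := h β hβ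
          gcongr
      _ < 1 := by rw [hxq]; linarith
  have hz' : ∀ β ∈ s', ‖(x : ℂ) * θ ^ 2 * β‖ < 1 := by
    intro β hβ
    rw [norm_mul, norm_mul, norm_pow, hθ1, one_pow, mul_one, Complex.norm_real, Real.norm_eq_abs,
      abs_of_pos hx0]
    calc x * ‖β‖ ≤ x * q := by
          have := h' β hβ
          gcongr
      _ < 1 := by rw [hxq]; linarith
  -- the three series
  have S1 : HasSum (fun k : ℕ => 3 * (1 - t) ^ (k + 1)) (3 * ((1 - t) / t)) := by
    have h1 : |1 - t| < 1 := by rw [abs_of_pos (by linarith)]; linarith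
    have h2 := (hasSum_geometric_of_abs_lt_one h1).mul_left (3 * (1 - t))
    have e : 3 * (1 - t) * (1 - (1 - t))⁻¹ = 3 * ((1 - t) / t) := by
      rw [sub_sub_cancel, div_eq_mul_inv]; ring
    rw [e] at h2
    have e' : (fun k : ℕ => 3 * (1 - t) ^ (k + 1)) = fun k : ℕ => 3 * (1 - t) * (1 - t) ^ k := by
      funext k
      rw [pow_succ]; ring
    rw [e']
    exact h2
  have S2 : HasSum (fun k : ℕ => ((s.map fun β => ((x : ℂ) * θ * β) ^ (k + 1)).sum).re)
      (((s.map fun β => ((x : ℂ) * θ * β) / (1 - (x : ℂ) * θ * β)).sum).re) := by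
    have := hasSum_multiset s (fun β k => ((x : ℂ) * θ * β) ^ (k + 1))
      (fun β => ((x : ℂ) * θ * β) / (1 - (x : ℂ) * θ * β)) (fun β hβ => geom _ (hz β hβ))
    exact Complex.hasSum_re this
  have S3 : HasSum (fun k : ℕ => ((s'.map fun β => ((x : ℂ) * θ ^ 2 * β) ^ (k + 1)).sum).re)
      (((s'.map fun β => ((x : ℂ) * θ ^ 2 * β) / (1 - (x : ℂ) * θ ^ 2 * β)).sum).re) := by
    have := hasSum_multiset s' (fun β k => ((x : ℂ) * θ ^ 2 * β) ^ (k + 1))
      (fun β => ((x : ℂ) * θ ^ 2 * β) / (1 - (x : ℂ) * θ ^ 2 * β)) (fun β hβ => geom _ (hz' β hβ))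
    exact Complex.hasSum_re this
  have ST := (S1.sub (S2.mul_left 4)).sub S3
  have hnn : ∀ k : ℕ, 0 ≤ 3 * (1 - t) ^ (k + 1) -
      4 * ((s.map fun β => ((x : ℂ) * θ * β) ^ (k + 1)).sum).re -
        ((s'.map fun β => ((x : ℂ) * θ ^ 2 * β) ^ (k + 1)).sum).re := by
    intro k
    have h1 := hpos θ hθ1 (k + 1) (by omega)
    have h2 := mul_nonneg (pow_nonneg hx0.le (k + 1)) h1
    refine h2.trans (le_of_eq ?_)
    have e1 : (s.map fun β => ((x : ℂ) * θ * β) ^ (k + 1)).sum =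
        ((x ^ (k + 1) : ℝ) : ℂ) * (θ ^ (k + 1) * (s.map fun β => β ^ (k + 1)).sum) := by
      rw [← Multiset.sum_map_mul_left, ← Multiset.sum_map_mul_left]
      congr 1
      refine Multiset.map_congr rfl fun β _ => ?_
      push_cast
      ring
    have e2 : (s'.map fun β => ((x : ℂ) * θ ^ 2 * β) ^ (k + 1)).sum =
        ((x ^ (k + 1) : ℝ) : ℂ) * (θ ^ (2 * (k + 1)) * (s'.map fun β => β ^ (k + 1)).sum) := by
      rw [← Multiset.sum_map_mul_left, ← Multiset.sum_map_mul_left]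
      congr 1
      refine Multiset.map_congr rfl fun β _ => ?_
      push_cast
      ring
    rw [e1, e2, Complex.re_ofReal_mul, Complex.re_ofReal_mul, ← hxq, mul_pow]
    ring
  have hfin := le_of_eq_of_le rfl (ST.nonneg hnn)
  -- separate the term of `α`
  obtain ⟨s₁, hs₁⟩ := Multiset.exists_cons_of_mem hα
  have hc1 : (s₁.card : ℝ) ≤ d - 1 := by
    rw [hs₁, Multiset.card_cons] at hs
    have : ((s₁.card + 1 : ℕ) : ℝ) ≤ d := by exact_mod_cast hs
    push_cast at this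
    linarith
  have hc2 : (s'.card : ℝ) ≤ d := by exact_mod_cast hs'
  have b1 := sum_re_ge s₁ (fun β => ((x : ℂ) * θ * β) / (1 - (x : ℂ) * θ * β))
    (fun β hβ => re_ge _ (hz β (by rw [hs₁]; exact Multiset.mem_cons_of_mem hβ)))
  have b2 := sum_re_ge s' (fun β => ((x : ℂ) * θ ^ 2 * β) / (1 - (x : ℂ) * θ ^ 2 * β))
    (fun β hβ => re_ge _ (hz' β hβ))
  set y : ℝ := x * ‖α‖ with hy
  have hza : (x : ℂ) * θ * α = (y : ℂ) := by
    rw [mul_assoc, hθα, hy]; push_cast; ring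
  have hya : (((x : ℂ) * θ * α) / (1 - (x : ℂ) * θ * α)).re = y / (1 - y) := by
    rw [hza]
    rw [show ((y : ℂ) / (1 - (y : ℂ))) = (((y / (1 - y) : ℝ)) : ℂ) by push_cast; ring]
    exact Complex.ofReal_re _
  have hsum : ((s.map fun β => ((x : ℂ) * θ * β) / (1 - (x : ℂ) * θ * β)).sum).re =
      y / (1 - y) + ((s₁.map fun β => ((x : ℂ) * θ * β) / (1 - (x : ℂ) * θ * β)).sum).re := by
    rw [hs₁, Multiset.map_cons, Multiset.sum_cons, Complex.add_re, hya]
  rw [hsum] at hfin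
  have hy1 : y < 1 := by
    have := hz α hα
    rw [hza, Complex.norm_real, Real.norm_eq_abs] at this
    exact lt_of_abs_lt this
  have hy2 : (1 - t) * (1 - t / 8) < y := by
    rw [hy, ← hxq]
    calc x * q * (1 - t / 8) = x * (q * (1 - t / 8)) := by ring
      _ < x * ‖α‖ := by gcongr
  refine final_ineq d t y hdR ht5 hy2 hy1 ?_
  linarith

end Pool.Agent.Helper54.PT
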